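import Mathlib

set_option autoImplicit false

namespace Pool.Agent.H.MP_cacfbf_al

open UniversalEnvelopingAlgebra

attribute [local instance] LieRing.ofAssociativeRing

/-- the field -/
abbrev F : Type := ZMod 3

/-- Heisenberg algebra -/
def L : Type := Fin 3 → F

instance : AddCommGroup L := inferInstanceAs (AddCommGroup (Fin 3 → F))
instance : Module F L := inferInstanceAs (Module F (Fin 3 → F))
instance : Fintype L := inferInstanceAs (Fintype (Fin 3 → F))
instance : DecidableEq L := inferInstanceAs (DecidableEq (Fin 3 → F))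

theorem add_ap (x y : L) (i : Fin 3) : (x + y) i = x i + y i := rfl
theorem smul_ap (a : F) (y : L) (i : Fin 3) : (a • y) i = a * y i := rfl

instance : LieRing L where
  bracket x y := ![0, 0, x 0 * y 1 - x 1 * y 0]
  add_lie x y z := by
    funext i; fin_cases i <;> simp [add_ap]; ring
  lie_add x y z := by
    funext i; fin_cases i <;> simp [add_ap]; ring
  lie_self x := by
    funext i; fin_cases i <;> simp [mul_comm] <;> rfl
  leibniz_lie x y z := by
    funext i; fin_cases i <;> simp [add_ap]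

theorem br (x y : L) : ⁅x, y⁆ = ![0, 0, x 0 * y 1 - x 1 * y 0] := rfl

instance : LieAlgebra F L where
  lie_smul a x y := by
    funext i; fin_cases i <;> simp [br, smul_ap]; ring

/-- the power map -/
def f (x : L) : L := ![0, 0, x 2]

theorem f_smul : ∀ (a : F) (x : L), f (a • x) = a ^ 3 • f x := by decide +kernel

theorem brbr (x y z : L) : ⁅x, ⁅y, z⁆⁆ = 0 := by
  funext i; fin_cases i <;> simp [br] <;> rfl

theorem f_ad (x y : L) : (LieAlgebra.ad F L x ^ 3) y = ⁅f x, y⁆ := by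
  have : ⁅f x, y⁆ = 0 := by funext i; fin_cases i <;> simp [br, f] <;> rfl
  rw [this, pow_succ, pow_two]
  simp [brbr]

theorem three {A : Type} [Ring A] [Algebra F A] : (3 : A) = 0 := by
  have : algebraMap F A 3 = 0 := by rw [show (3 : F) = 0 from rfl, map_zero]
  rwa [map_ofNat] at this

theorem f_add (x y : L) : ι F (f (x + y)) - ι F (f x) - ι F (f y) =
    (ι F x + ι F y) ^ 3 - ι F x ^ 3 - ι F y ^ 3 := by
  have h0 : f (x + y) = f x + f y := by funext i; fin_cases i <;> simp [f, add_ap]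
  have e : ∀ a b : L, ι F ⁅a, b⁆ = ι F a * ι F b - ι F b * ι F a := fun a b => by
    rw [LieHom.map_lie]; rfl
  have h1 := e x ⁅x, y⁆
  have h2 := e y ⁅y, x⁆
  rw [brbr, map_zero, e] at h1 h2
  rw [h0, map_add]
  generalize ι F x = X at *
  generalize ι F y = Y at *
  have : (X + Y) ^ 3 - X ^ 3 - Y ^ 3 = (X * (X * Y - Y * X) - (X * Y - Y * X) * X) +
      (Y * (Y * X - X * Y) - (Y * X - X * Y) * Y) + 3 * (X * Y * X + Y * X * Y) := by
    noncomm_ring
  rw [this, ← h1, ← h2, three]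
  simp

/-- relation -/
abbrev rel (a b : UniversalEnvelopingAlgebra F L) : Prop := ∃ x : L, a = ι F x ^ 3 ∧ b = ι F (f x)

/-- restricted enveloping algebra -/
abbrev U : Type := RingQuot rel

/-- generators -/
noncomputable def j (x : L) : U := RingQuot.mkAlgHom F rel (ι F x)

theorem j_cube (x : L) : j x ^ 3 = j (f x) := by
  unfold j
  rw [← map_pow]
  exact RingQuot.mkAlgHom_rel F ⟨x, rfl, rfl⟩

theorem j_br (x y : L) : j x * j y - j y * j x = j ⁅x, y⁆ := by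
  unfold j
  rw [LieHom.map_lie, ← map_mul (RingQuot.mkAlgHom F rel), ← map_mul (RingQuot.mkAlgHom F rel),
    ← map_sub]; rfl

theorem j_zero : j 0 = 0 := by simp [j]

/-- first generator -/
noncomputable def X : U := j ![1, 0, 0]
/-- second generator -/
noncomputable def Y : U := j ![0, 1, 0]
/-- central generator -/
noncomputable def Z : U := j ![0, 0, 1]

theorem X3 : X * X * X = 0 := by
  rw [← pow_three', X, j_cube, ← j_zero]; congr 1; decide +kernel
theorem Y3 : Y * Y * Y = 0 := by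
  rw [← pow_three', Y, j_cube, ← j_zero]; congr 1; decide +kernel
theorem Z3 : Z * Z * Z = Z := by
  rw [← pow_three', Z, j_cube]; congr 1
theorem XY : X * Y = Y * X + Z := by
  rw [← sub_eq_iff_eq_add', X, Y, Z, j_br]; congr 1
theorem XZ : Z * X = X * Z := by
  rw [← sub_eq_zero, X, Z, j_br, ← j_zero]; congr 1; decide +kernel
theorem YZ : Z * Y = Y * Z := by
  rw [← sub_eq_zero, Y, Z, j_br, ← j_zero]; congr 1; decide +kernel

theorem XXYY : X * X * (Y * Y) = Y * Y * (X * X) + 4 * (Y * X * Z) + 2 * (Z * Z) := by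
  have h1 : X * X * (Y * Y) = X * (X * Y) * Y := by noncomm_ring
  have h2 : X * (Y * X + Z) * Y = (X * Y) * (X * Y) + X * (Z * Y) := by noncomm_ring
  have h3 : (Y * X + Z) * (Y * X + Z) + X * (Y * Z) =
      Y * (X * Y) * X + Y * X * Z + (Z * Y) * X + Z * Z + (X * Y) * Z := by noncomm_ring
  rw [h1, XY, h2, XY, YZ, h3, XY, YZ]
  have h4 : Y * (Y * X + Z) * X + Y * X * Z + Y * Z * X + Z * Z + (Y * X + Z) * Z =
      Y * Y * (X * X) + 2 * (Y * (Z * X)) + 2 * (Y * X * Z) + 2 * (Z * Z) := by noncomm_ring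
  rw [h4, XZ]
  noncomm_ring

/-- upper matrix unit -/
noncomputable def a : U := X * X * (Z * Z)
/-- lower matrix unit -/
noncomputable def b : U := 2 * (Y * Y * (Z * Z))

theorem cZ (u : U) (h : Z * u = u * Z) : Z * Z * u = u * (Z * Z) := by
  rw [mul_assoc, h, ← mul_assoc, h, mul_assoc]

theorem ZZX : Z * Z * (X * X) = X * X * (Z * Z) :=
  cZ _ (by rw [← mul_assoc, XZ, mul_assoc, XZ, mul_assoc])
theorem ZZY : Z * Z * (Y * Y) = Y * Y * (Z * Z) :=
  cZ _ (by rw [← mul_assoc, YZ, mul_assoc, YZ, mul_assoc])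
theorem Z4 : Z * Z * (Z * Z) = Z * Z := by rw [← mul_assoc, Z3]

theorem aa : a * a = 0 := by
  have : a * a = X * X * (Z * Z * (X * X)) * (Z * Z) := by unfold a; noncomm_ring
  rw [this, ZZX]
  have : X * X * (X * X * (Z * Z)) * (Z * Z) = X * X * X * (X * (Z * Z) * (Z * Z)) := by
    noncomm_ring
  rw [this, X3, zero_mul]

theorem bb : b * b = 0 := by
  have : b * b = 4 * (Y * Y * (Z * Z * (Y * Y)) * (Z * Z)) := by unfold b; noncomm_ring
  rw [this, ZZY]
  have : Y * Y * (Y * Y * (Z * Z)) * (Z * Z) = Y * Y * Y * (Y * (Z * Z) * (Z * Z)) := by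
    noncomm_ring
  rw [this, Y3, zero_mul, mul_zero]

theorem xyx : X * X * (Y * Y) * (X * X) = 2 * (X * X * (Z * Z)) := by
  rw [XXYY, ← ZZX]
  have : (Y * Y * (X * X) + 4 * (Y * X * Z) + 2 * (Z * Z)) * (X * X) =
      Y * Y * (X * X * X) * X + 4 * (Y * X * (Z * X) * X) + 2 * (Z * Z * (X * X)) := by
    noncomm_ring
  rw [this, XZ, X3]
  have : Y * X * (X * Z) * X = Y * X * X * (Z * X) := by noncomm_ring
  rw [this, XZ]
  have : Y * X * X * (X * Z) = Y * (X * X * X) * Z := by noncomm_ring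
  rw [this, X3]
  simp

theorem yxy : Y * Y * (X * X * (Y * Y)) = 2 * (Y * Y * (Z * Z)) := by
  rw [XXYY]
  have : Y * Y * (Y * Y * (X * X) + 4 * (Y * X * Z) + 2 * (Z * Z)) =
      Y * Y * Y * (Y * (X * X)) + 4 * (Y * Y * Y * (X * Z)) + 2 * (Y * Y * (Z * Z)) := by
    noncomm_ring
  rw [this, Y3]
  simp

theorem aba : a * b * a = a := by
  have h1 : a * b * a = 2 * (X * X * (Z * Z * (Y * Y)) * (Z * Z * (X * X)) * (Z * Z)) := by
    unfold a b; noncomm_ring
  rw [h1, ZZY, ZZX]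
  have h2 : X * X * (Y * Y * (Z * Z)) * (X * X * (Z * Z)) * (Z * Z) =
      X * X * (Y * Y) * (Z * Z * (X * X)) * (Z * Z * (Z * Z)) := by noncomm_ring
  rw [h2, ZZX, Z4]
  have h3 : X * X * (Y * Y) * (X * X * (Z * Z)) * (Z * Z) =
      X * X * (Y * Y) * (X * X) * (Z * Z * (Z * Z)) := by noncomm_ring
  rw [h3, xyx, Z4]
  have h4 : 2 * (2 * (X * X * (Z * Z)) * (Z * Z)) =
      X * X * (Z * Z * (Z * Z)) + 3 * (X * X * (Z * Z * (Z * Z))) := by noncomm_ring
  rw [h4, three, Z4, zero_mul, add_zero, a]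

theorem bab : b * a * b = b := by
  have h1 : b * a * b = 4 * (Y * Y * (Z * Z * (X * X)) * (Z * Z * (Y * Y)) * (Z * Z)) := by
    unfold a b; noncomm_ring
  rw [h1, ZZY, ZZX]
  have h2 : Y * Y * (X * X * (Z * Z)) * (Y * Y * (Z * Z)) * (Z * Z) =
      Y * Y * (X * X) * (Z * Z * (Y * Y)) * (Z * Z * (Z * Z)) := by noncomm_ring
  rw [h2, ZZY, Z4]
  have h3 : Y * Y * (X * X) * (Y * Y * (Z * Z)) * (Z * Z) =
      Y * Y * (X * X * (Y * Y)) * (Z * Z * (Z * Z)) := by noncomm_ring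
  rw [h3, yxy, Z4]
  have h4 : 4 * (2 * (Y * Y * (Z * Z)) * (Z * Z)) =
      2 * (Y * Y * (Z * Z * (Z * Z))) + 3 * (2 * (Y * Y * (Z * Z * (Z * Z)))) := by noncomm_ring
  rw [h4, three, Z4, zero_mul, add_zero, b]

/-- two by two matrices -/
abbrev M2 : Type := Matrix (Fin 2) (Fin 2) F

/-- embedding of the matrix algebra -/
noncomputable def emb : M2 →ₙₐ[F] U where
  toFun m := m 0 0 • (a * b) + m 0 1 • a + m 1 0 • b + m 1 1 • (b * a)
  map_smul' c m := by simp [smul_smul]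
  map_zero' := by simp
  map_add' m n := by simp only [Matrix.add_apply, add_smul]; abel
  map_mul' m n := by
    have e1 : a * (b * a) = a := by rw [← mul_assoc, aba]
    have e2 : b * (a * b) = b := by rw [← mul_assoc, bab]
    have e3 : ∀ u, a * (a * u) = 0 := fun u => by rw [← mul_assoc, aa, zero_mul]
    have e4 : ∀ u, b * (b * u) = 0 := fun u => by rw [← mul_assoc, bb, zero_mul]
    simp only [Matrix.mul_apply, Fin.sum_univ_two, add_mul, mul_add, smul_mul_assoc,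
      mul_smul_comm, mul_assoc, e1, e2, e3, e4, aa, bb, mul_zero, smul_zero, add_smul]
    module

/-- expanded standard polynomial -/
def st {A : Type} [Ring A] (r : Fin 4 → A) : A :=
  r 0 * r 1 * r 2 * r 3 - r 0 * r 1 * r 3 * r 2 - r 0 * r 2 * r 1 * r 3 + r 0 * r 2 * r 3 * r 1
  + r 0 * r 3 * r 1 * r 2 - r 0 * r 3 * r 2 * r 1 - r 1 * r 0 * r 2 * r 3
  + r 1 * r 0 * r 3 * r 2 + r 1 * r 2 * r 0 * r 3 - r 1 * r 2 * r 3 * r 0
  - r 1 * r 3 * r 0 * r 2 + r 1 * r 3 * r 2 * r 0 + r 2 * r 0 * r 1 * r 3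
  - r 2 * r 0 * r 3 * r 1 - r 2 * r 1 * r 0 * r 3 + r 2 * r 1 * r 3 * r 0
  + r 2 * r 3 * r 0 * r 1 - r 2 * r 3 * r 1 * r 0 - r 3 * r 0 * r 1 * r 2
  + r 3 * r 0 * r 2 * r 1 + r 3 * r 1 * r 0 * r 2 - r 3 * r 1 * r 2 * r 0
  - r 3 * r 2 * r 0 * r 1 + r 3 * r 2 * r 1 * r 0

theorem perms4 : (Finset.univ : Finset (Equiv.Perm (Fin 4))).val.map
    (fun σ => (((Equiv.Perm.sign σ : ℤˣ) : ℤ), σ 0, σ 1, σ 2, σ 3)) =
    ([(1, 0, 1, 2, 3), (-1, 0, 1, 3, 2), (-1, 0, 2, 1, 3), (1, 0, 2, 3, 1), (1, 0, 3, 1, 2),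
      (-1, 0, 3, 2, 1), (-1, 1, 0, 2, 3), (1, 1, 0, 3, 2), (1, 1, 2, 0, 3), (-1, 1, 2, 3, 0),
      (-1, 1, 3, 0, 2), (1, 1, 3, 2, 0), (1, 2, 0, 1, 3), (-1, 2, 0, 3, 1), (-1, 2, 1, 0, 3),
      (1, 2, 1, 3, 0), (1, 2, 3, 0, 1), (-1, 2, 3, 1, 0), (-1, 3, 0, 1, 2), (1, 3, 0, 2, 1),
      (1, 3, 1, 0, 2), (-1, 3, 1, 2, 0), (-1, 3, 2, 0, 1), (1, 3, 2, 1, 0)] : List (ℤ × Fin 4 × Fin 4 × Fin 4 × Fin 4)) := by
  decide +kernel

theorem expand {A : Type} [Ring A] (r : Fin 4 → A) : (∑ σ : Equiv.Perm (Fin 4),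
    ((Equiv.Perm.sign σ : ℤˣ) : ℤ) • (List.ofFn fun i => r (σ i)).prod) = st r := by
  have h : (∑ σ : Equiv.Perm (Fin 4),
      ((Equiv.Perm.sign σ : ℤˣ) : ℤ) • (List.ofFn fun i => r (σ i)).prod) =
      (((Finset.univ : Finset (Equiv.Perm (Fin 4))).val.map
        (fun σ => (((Equiv.Perm.sign σ : ℤˣ) : ℤ), σ 0, σ 1, σ 2, σ 3))).map
        (fun q : ℤ × Fin 4 × Fin 4 × Fin 4 × Fin 4 =>
          q.1 • (r q.2.1 * r q.2.2.1 * r q.2.2.2.1 * r q.2.2.2.2))).sum := by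
    rw [Multiset.map_map, Finset.sum_eq_multiset_sum]
    congr 2
    funext σ
    simp [List.ofFn_succ, mul_assoc]
  rw [h, perms4]
  simp only [Multiset.map_coe, List.map_cons, List.map_nil, Multiset.sum_coe, List.sum_cons,
    List.sum_nil, st, one_smul, neg_smul]
  abel

theorem st_M2 (r : Fin 4 → M2) : st r = 0 := by
  ext i k
  fin_cases i <;> fin_cases k <;> simp [st, Matrix.mul_apply, Fin.sum_univ_two] <;> ring

theorem st_emb (r : Fin 4 → M2) : st (fun i => emb (r i)) = 0 := by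
  have : st (fun i => emb (r i)) = emb (st r) := by simp only [st, map_add, map_sub, map_mul]
  rw [this, st_M2, map_zero]

/-- three by three matrices -/
abbrev M3 : Type := Matrix (Fin 3) (Fin 3) F

/-- representation matrices -/
def rho0 (x : L) : M3 := !![x 2, x 0, 0; x 1, x 2, 2 * x 0; 0, x 1, x 2]

theorem rho0_br : ∀ x y : L, rho0 ⁅x, y⁆ = rho0 x * rho0 y - rho0 y * rho0 x := by
  decide +kernel

theorem rho0_cube : ∀ x : L, rho0 x ^ 3 = rho0 (f x) := by
  decide +kernel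

/-- representation -/
def rho1 : L →ₗ⁅F⁆ M3 where
  toFun := rho0
  map_add' := by decide +kernel
  map_smul' := by decide +kernel
  map_lie' := fun {x y} => rho0_br x y

/-- representation of the restricted enveloping algebra -/
noncomputable def rho : U →ₐ[F] M3 :=
  RingQuot.liftAlgHom F ⟨lift F rho1, by
    rintro _ _ ⟨x, rfl, rfl⟩
    rw [map_pow, lift_ι_apply, lift_ι_apply]
    exact rho0_cube x⟩

theorem rho_j (x : L) : rho (j x) = rho0 x := by
  simp [rho, j, rho1]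

theorem comm_ne (t : ℕ) : (a * b - b * a) ^ t ≠ 0 := by
  intro h
  have h1 := congrArg rho h
  rw [map_pow, map_zero] at h1
  have h2 : rho (a * b - b * a) = !![1, 0, 0; 0, 0, 0; 0, 0, -1] := by
    simp only [a, b, X, Y, Z, map_sub, map_mul, rho_j, map_ofNat]
    decide +kernel
  rw [h2] at h1
  have h3 : ∀ n : ℕ, (((!![1, 0, 0; 0, 0, 0; 0, 0, -1] : M3) ^ n) 0 0 = 1 ∧
      ((!![1, 0, 0; 0, 0, 0; 0, 0, -1] : M3) ^ n) 0 1 = 0 ∧
      ((!![1, 0, 0; 0, 0, 0; 0, 0, -1] : M3) ^ n) 0 2 = 0) := by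
    intro n
    induction n with
    | zero => simp
    | succ n ih => simp [pow_succ, Matrix.mul_apply, Fin.sum_univ_three, ih]
  have h4 := (h3 t).1
  rw [h1] at h4
  exact absurd h4 (by decide)

theorem st_ne : st (fun i : Fin 4 => FreeAlgebra.ι F i) ≠ 0 := by
  intro h
  have h1 := congrArg (FreeAlgebra.lift F (fun i : Fin 4 =>
    (![!![1, 0, 0; 0, 0, 0; 0, 0, 0], !![0, 1, 0; 0, 0, 0; 0, 0, 0], !![0, 0, 0; 0, 1, 0; 0, 0, 0],
      !![0, 0, 0; 0, 0, 1; 0, 0, 0]] : Fin 4 → M3) i)) h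
  simp only [st, map_add, map_sub, map_mul, FreeAlgebra.lift_ι_apply, map_zero] at h1
  revert h1
  decide +kernel

theorem emb_a : emb !![0, 1; 0, 0] = a := by simp [emb]
theorem emb_b : emb !![0, 0; 1, 0] = b := by simp [emb]

end Pool.Agent.H.MP_cacfbf_al
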